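import Pool.Agent.E8helper16.ZD.Main

/-!
# Group rings without zero divisors: transfer to the same characteristic and to characteristic `0`

Let `G` be a group and `R` an integral domain such that `RG` has no zero divisors, and suppose that `R` contains an
algebraically closed field `F` (or only that there is a homomorphism `F → R`).  Then `DG` has no zero divisors for every
integral domain `D` of characteristic `0` and for every integral domain `D` of the characteristic of `F`.

So the question for such `R` is open only for domains `D` of positive characteristic other than that of `R`.

Proof.  Zero divisors with supports `{g_1, ..., g_k}`, `{h_1, ..., h_l}` are solutions of the bilinear equations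
`∑ x_i y_j = 0`, the sums over the pairs with `g_i h_j = z`.  Solutions over a field give solutions over an algebraically
closed field of the same characteristic (Zariski's lemma).  Solutions in characteristic `0` give solutions in
characteristic `p` for every prime `p`: normalise them with respect to a valuation above `p`, and reduce.
-/

namespace Pool.Agent.Results.MP_b3f03e_al.AlgClosedCoefficientsH16

open Pool.Agent.E8helper16.ZD

/-- **Transfer from a coefficient domain over an algebraically closed field** to all domains of characteristic `0` and to
all domains of the same characteristic. -/
theorem result (F R D G : Type) [Field F] [IsAlgClosed F] [CommRing R] [IsDomain R] [CommRing D] [IsDomain D] [Group G]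
    (f : F →+* R) (hD : ringChar D = 0 ∨ ringChar D = ringChar F) (h : NoZeroDivisors (MonoidAlgebra R G)) :
    NoZeroDivisors (MonoidAlgebra D G) :=
  main_A F R D G f hD h

end Pool.Agent.Results.MP_b3f03e_al.AlgClosedCoefficientsH16
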