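import Pool.Agent.E8helper16.ZD.Main

/-!
# Group rings without zero divisors: transfer from characteristic `0` to large characteristic, uniformly in the group

For all `m` and `n` there is `p0` with the following property.  Let `G` be ANY group and let `R` be an integral domain
over an algebraically closed field `F` of characteristic `0` such that `RG` has no zero divisors.  Then for every
integral domain `D` of characteristic at least `p0` there are no nonzero `a, b` in `DG` with `ab = 0` and supports of at
most `m` and at most `n` elements.

So a counterexample to the question with such a domain `R` can exist in characteristic `p` only with supports which grow
with `p`, at a rate which does not depend on the group.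

Proof.  Zero divisors with supports `{g_1, ..., g_k}`, `{h_1, ..., h_l}` are solutions of the bilinear equations
`∑ x_i y_j = 0`, the sums over the pairs with `g_i h_j = z`.  Which equations these are depends only on the coincidences
between the products `g_i h_j`, and for given `k` and `l` there are finitely many such patterns for all groups together.
If for one pattern there are solutions in infinitely many characteristics then there are solutions in characteristic
`0`, over a quotient of the product of the fields, and hence over every algebraically closed field of characteristic `0`
(Zariski's lemma), so that every group with this pattern has zero divisors over `F`.
-/

namespace Pool.Agent.Results.MP_b3f03e_al.LargeCharacteristicH16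

open Pool.Agent.E8helper16.ZD

/-- **From characteristic `0` to large characteristic.**  The bound `p0` depends only on the sizes `m`, `n` of the
supports, and not on the group and the coefficient domains. -/
theorem result (m n : ℕ) : ∃ p0 : ℕ, ∀ (F R D G : Type) [Field F] [IsAlgClosed F] [CharZero F] [CommRing R] [IsDomain R]
    [CommRing D] [IsDomain D] [Group G], (F →+* R) → p0 ≤ ringChar D → NoZeroDivisors (MonoidAlgebra R G) →
      ∀ a b : MonoidAlgebra D G, a.coeff.support.card ≤ m → b.coeff.support.card ≤ n → a * b = 0 → a = 0 ∨ b = 0 :=
  main_B m n

end Pool.Agent.Results.MP_b3f03e_al.LargeCharacteristicH16
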