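import Pool.Agent.E8helper16.ZD.Place

/-!
# Group rings without zero divisors: from ANY domain of characteristic `p` to the domains in the `p`-adic numbers

Let `R` be an integral domain of characteristic `p > 0` and `G` a group such that `RG` has no zero divisors.  Then `DG`
has no zero divisors for every integral domain `D` which embeds into the field of `p`-adic numbers, for example for
`D = ℤ` and `D = ℚ`.  More generally this holds, for domains `R` of any characteristic, if `D` embeds into a field `K`
which has a valuation ring with a homomorphism to the field of fractions of `R` (a place).

Proof.  Zero divisors over `K` are solutions of bilinear equations with coefficients `0`, `1`; normalise them with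
respect to the valuation, map them to the field of fractions of `R`, and clear denominators.
-/

namespace Pool.Agent.Results.MP_b3f03e_al.PadicDomainsH16

open Pool.Agent.E8helper16.ZD

/-- **Transfer along places.**  If `RG` has no zero divisors then `DG` has none for the subrings `D` of every field with a
valuation ring `B` and a homomorphism from `B` to the field of fractions of `R`; in particular, if `R` has characteristic
`p > 0`, for the domains which embed into the field of `p`-adic numbers. -/
theorem result :
    (∀ (R D K G : Type) [CommRing R] [IsDomain R] [CommRing D] [Field K] [Group G] (g : D →+* K),
      Function.Injective g → ∀ (B : ValuationSubring K), (B →+* FractionRing R) →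
        NoZeroDivisors (MonoidAlgebra R G) → NoZeroDivisors (MonoidAlgebra D G)) ∧
    ∀ (p : ℕ) [Fact p.Prime] (R D G : Type) [CommRing R] [IsDomain R] [CharP R p] [CommRing D] [Group G]
      (g : D →+* ℚ_[p]), Function.Injective g →
        NoZeroDivisors (MonoidAlgebra R G) → NoZeroDivisors (MonoidAlgebra D G) :=
  ⟨fun R D K G _ _ _ _ _ g hg B f h => main_P R D K G g hg B f h,
    fun p _ R D G _ _ _ _ _ g hg h => main_Qp p R D G g hg h⟩

end Pool.Agent.Results.MP_b3f03e_al.PadicDomainsH16
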